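import Pool.Agent.Q275.TC.Tree

/-! Unimodular 4 by 4 matrices in link graphs (generated data, checked by the kernel). -/

set_option autoImplicit false
set_option maxRecDepth 100000
set_option maxHeartbeats 4000000

namespace Pool.Agent.Q275.TC
open Pool.Agent.Y47.BU
open Pool.Agent.TH773.ST

/-- the entry `(i, j)` of a `4 × 4` matrix given by the list of the entries -/
def ent (l : List ℕ) (i j : ℕ) : ℤ := (l.getD (4 * i + j) 0 : ℕ)

/-- the minor with the rows `i`, `i + 1` and the columns `a`, `b` -/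
def mnr (l : List ℕ) (i a b : ℕ) : ℤ := ent l i a * ent l (i + 1) b - ent l i b * ent l (i + 1) a

/-- the determinant -/
def det4 (l : List ℕ) : ℤ :=
  mnr l 0 0 1 * mnr l 2 2 3 - mnr l 0 0 2 * mnr l 2 1 3 + mnr l 0 0 3 * mnr l 2 1 2 +
    mnr l 0 1 2 * mnr l 2 0 3 - mnr l 0 1 3 * mnr l 2 0 2 + mnr l 0 2 3 * mnr l 2 0 1

/-- a `4 × 4` submatrix with the rows `1, ..., 4` and the columns `5, ..., 8` and with determinant
`1` or `-1` in the link graph of `0` -/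
def PR : Sp := ⟨9, [(0, 1, 5), (0, 1, 6), (0, 1, 7), (0, 1, 8), (0, 2, 5), (0, 2, 6), (0, 2, 7), (0, 2, 8), (0, 3, 5), (0, 3, 6), (0, 3, 7), (0, 3, 8), (0, 4, 5), (0, 4, 6), (0, 4, 7), (0, 4, 8)], fun l => Nat.beq (det4 l).natAbs 1⟩

theorem okPR : PR.Ok := by unfold Sp.Ok; decide

/-- a tree -/
def tR0 : Tr := (.n 2 (.n 8 (.n 20 (.f 90457666) (.n 26 (.n 13 (.n 32 (.n 12 (.n 16 (.n 9 (.n 17 (.n 3 (.n 15 (.f 88360003) (.k 6653008)) (.n 18 (.n 4 (.n 1 (.f 73937984) (.k 6324288)) (.k 6422592)) (.k 263768))) (.n 15 (.f 90453058) (.k 6653008))) (.n 19 (.n 10 (.n 6 (.f 73970753) (.k 6292040)) (.k 6423112)) (.k 2393688))) (.n 15 (.f 73675842) (.k 6653008))) (.n 15 (.f 54801474) (.k 6653008))) (.f 92558914)) (.n 16 (.n 15 (.n 12 (.f 73675842) (.k 2098256)) (.k 6653008)) (.k 2229328))) (.f 92554818))) (.n 19 (.n 13 (.n 10 (.n 9 (.n 6 (.f 73970753) (.k 4194888)) (.k 4293192)) (.k 4325960)) (.k 2393168))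 (.n 13 (.n 10 (.n 9 (.n 6 (.f 73970753) (.k 4194888)) (.k 6652488)) (.k 4325960)) (.k 2393168)))) (.n 3 (.n 12 (.n 5 (.n 4 (.n 1 (.f 90719296) (.k 4227136)) (.k 4325440)) (.k 4358208)) (.k 263248)) (.n 24 (.n 30 (.n 12 (.n 5 (.n 4 (.f 92821632) (.k 4325440)) (.k 4358208)) (.k 263248)) (.n 12 (.n 5 (.n 4 (.f 92821632) (.k 4325440)) (.k 10911808)) (.k 263248))) (.n 6 (.n 11 (.n 29 (.n 5 (.f 73679941) (.k 4358208)) (.k 165984)) (.n 31 (.n 9 (.n 8 (.n 1 (.f 90461249) (.k 4227136)) (.k 10551880)) (.k 10584648)) (.k 2394728))) (.n 12 (.n 4 (.n 1 (.f 71582784) (.k 2392128)) (.k 8781888)) (.k 263248))))))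

theorem oR0 : chkQ PR 96747 [] tR0 = true := by decide +kernel

/-- a tree -/
def tR1 : Tr := (.n 4 (.n 10 (.n 16 (.f 88355908) (.n 17 (.n 32 (.n 26 (.n 15 (.n 12 (.f 92854466) (.k 8389712)) (.k 8488016)) (.k 4524128)) (.n 26 (.n 15 (.n 12 (.f 92854466) (.k 8389712)) (.k 8488016)) (.k 4524128))) (.n 32 (.n 26 (.n 13 (.n 12 (.f 93149250) (.k 8389712)) (.k 10519632)) (.k 4524128)) (.k 4524648)))) (.n 13 (.n 19 (.n 25 (.f 93144705) (.k 2394208)) (.n 25 (.n 11 (.n 9 (.n 6 (.f 93111873) (.k 8389192)) (.k 6652488)) (.k 8553032)) (.k 2394208))) (.n 25 (.n 11 (.n 8 (.n 6 (.f 92849217) (.k 8389192)) (.k 4522568)) (.k 8553032)) (.k 2394208)))) (.n 24 (.n 5 (.n 3 (.n 2 (.n 1 (.f 93078592) (.k 8421440)) (.k 8454208)) (.k 8486976)) (.k 8552512)) (.k 264288)))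

theorem oR1 : chkQ PR 228027 [] tR1 = true := by decide +kernel

theorem okR : ∀ m ∈ famM 0, ∃ tr, chkQ PR m [] tr = true := by
  intro m hm
  simp only [famM, List.mem_cons, List.not_mem_nil, or_false] at hm
  rcases hm with rfl | rfl
  exacts [⟨_, oR0⟩, ⟨_, oR1⟩]

end Pool.Agent.Q275.TC
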