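import Pool.Agent.Q275.TC.Tree

/-! Systems of traces on three vertices (generated data, checked by the kernel). -/

set_option autoImplicit false
set_option maxRecDepth 100000
set_option maxHeartbeats 4000000

namespace Pool.Agent.Q275.TC
open Pool.Agent.Y47.BU
open Pool.Agent.TH773.ST

/-- the traces `∅, 0, 1, 01, 2, 02` on the vertices `0, 1, 2` -/
def PS1 : Sp := ⟨15, [(3, 4, 0), (3, 4, 1), (3, 4, 2), (5, 6, 0), (5, 6, 1), (5, 6, 2), (7, 8, 0), (7, 8, 1), (7, 8, 2), (9, 10, 0), (9, 10, 1), (9, 10, 2), (11, 12, 0), (11, 12, 1), (11, 12, 2), (13, 14, 0), (13, 14, 1), (13, 14, 2)], fun l => l == [0, 0, 0, 1, 0, 0, 0, 1, 0, 1, 1, 0, 0, 0, 1, 1, 0, 1]⟩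

theorem okPS1 : PS1.Ok := by unfold Sp.Ok; decide

/-- a tree -/
def tS10 : Tr := (.n 4 (.n 2 (.n 20 (.n 1 (.n 19 (.f 17664332805317) (.n 18 (.n 9 (.f 14023528939656) (.k 6652488)) (.k 2098776))) (.f 17730771137859)) (.n 18 (.n 19 (.f 14573185283777) (.k 4228696)) (.n 23 (.n 15 (.n 3 (.f 17802042848578) (.k 6651968)) (.k 6653008)) (.k 165464)))) (.n 8 (.n 29 (.n 5 (.n 1 (.f 9695139332360) (.k 4227136)) (.k 4358208)) (.n 34 (.n 5 (.n 1 (.f 9625346113864) (.k 4227136)) (.k 4358208)) (.k 8784488))) (.n 19 (.n 10 (.n 9 (.n 6 (.f 22061188420300) (.k 4194888)) (.k 4293192)) (.k 4325960)) (.n 20 (.n 18 (.n 13 (.n 12 (.n 9 (.n 1 (.f 13746100905096) (.k 4227136)) (.k 6652488)) (.k 263248)) (.k 2393168)) (.k 2098776)) (.k 2164312))))) (.n 15 (.n 24 (.n 5 (.n 2 (.f 21994619057410) (.k 8454208)) (.k 8552512)) (.k 264288)) (.n 24 (.n 20 (.n 5 (.n 3 (.f 21994616960259) (.k 8486976)) (.k 8552512))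 (.k 4523608)) (.k 264288))))

theorem oS10 : chkQ PS1 96747 [] tS10 = true := by decide +kernel

/-- a tree -/
def tS11 : Tr := (.n 15 (.n 27 (.n 13 (.n 12 (.n 8 (.n 33 (.f 13891053672290) (.n 32 (.n 30 (.f 23789103826785) (.k 6294120)) (.n 31 (.n 30 (.n 17 (.f 19633692779656) (.k 10912848)) (.k 4196968)) (.k 4229736)))) (.n 33 (.n 9 (.n 6 (.f 9564105066337) (.k 4194888)) (.k 4293192)) (.n 16 (.n 9 (.n 6 (.f 13823542109320) (.k 4194888)) (.k 4293192)) (.n 10 (.n 9 (.n 6 (.f 13823542076552) (.k 4194888)) (.k 4293192)) (.n 26 (.n 25 (.n 9 (.f 8875756538137) (.k 4293192)) (.k 2394208)) (.k 4524128)))))) (.n 17 (.n 16 (.f 13891053659490) (.k 132176)) (.k 164944))) (.n 25 (.n 16 (.n 17 (.f 9630446101858) (.k 2262096)) (.n 32 (.n 26 (.n 17 (.f 9630429304162) (.k 2262096)) (.k 4524128)) (.n 33 (.n 30 (.n 26 (.n 17 (.n 8 (.f 23238274303329) (.k 4522568)) (.k 10912848)) (.k 4524128)) (.k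 4196968)) (.n 29 (.n 26 (.n 17 (.f 9630429301090) (.k 10912848)) (.k 4524128)) (.n 34 (.n 31 (.n 30 (.n 24 (.n 17 (.n 12 (.n 8 (.f 9661030947656) (.k 4522568)) (.k 2098256)) (.k 10912848)) (.k 10487904)) (.k 4196968)) (.k 4229736)) (.k 8784488)))))) (.n 24 (.n 17 (.n 12 (.n 10 (.n 8 (.f 9083892863761) (.k 4522568)) (.k 8782408)) (.k 2098256)) (.k 2262096)) (.k 2099296)))) (.n 19 (.n 26 (.n 24 (.n 22 (.f 9101108393753) (.k 8783448)) (.k 6293600)) (.k 6359136)) (.n 24 (.n 22 (.n 20 (.n 18 (.f 19467150374680) (.k 2098776)) (.k 2164312)) (.k 8783448)) (.k 6293600)))) (.n 23 (.n 20 (.n 16 (.n 13 (.f 9630446073683) (.k 6325328)) (.k 6423632)) (.k 4523608)) (.n 33 (.n 20 (.n 19 (.n 16 (.f 13429632255313) (.k 6423632)) (.k 10520152)) (.k 4523608)) (.k 6654568))))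

theorem oS11 : chkQ PS1 228027 [] tS11 = true := by decide +kernel

theorem okS1 : ∀ m ∈ famM 0, ∃ tr, chkQ PS1 m [] tr = true := by
  intro m hm
  simp only [famM, List.mem_cons, List.not_mem_nil, or_false] at hm
  rcases hm with rfl | rfl
  exacts [⟨_, oS10⟩, ⟨_, oS11⟩]

/-- the traces `∅, 0, 01, 2, 012` on the vertices `0, 1, 2` -/
def PS2 : Sp := ⟨13, [(3, 4, 0), (3, 4, 1), (3, 4, 2), (5, 6, 0), (5, 6, 1), (5, 6, 2), (7, 8, 0), (7, 8, 1), (7, 8, 2), (9, 10, 0), (9, 10, 1), (9, 10, 2), (11, 12, 0), (11, 12, 1), (11, 12, 2)], fun l => l == [0, 0, 0, 1, 0, 0, 1, 1, 0, 0, 0, 1, 1, 1, 1]⟩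

theorem okPS2 : PS2.Ok := by unfold Sp.Ok; decide

/-- a tree -/
def tS20 : Tr := (.n 15 (.n 4 (.f 219514188842) (.n 24 (.n 2 (.f 214816896272) (.k 8454208)) (.k 264288))) (.n 4 (.n 20 (.f 150660494379) (.k 4523608)) (.n 20 (.n 13 (.n 3 (.n 2 (.f 278404661400) (.k 8454208)) (.k 8486976)) (.k 6325328)) (.k 4523608))))

theorem oS20 : chkQ PS2 96747 [] tS20 = true := by decide +kernel

/-- a tree -/
def tS21 : Tr := (.n 16 (.n 10 (.f 280868504147) (.n 8 (.n 11 (.n 6 (.f 286994272872) (.k 8389192)) (.k 8553032)) (.n 11 (.n 9 (.n 6 (.f 149572096616) (.k 4194888)) (.k 4293192)) (.k 4358728)))) (.n 20 (.n 22 (.f 279475734249) (.n 1 (.n 2 (.n 15 (.n 12 (.f 216967427394) (.k 8389712)) (.k 8488016)) (.n 26 (.n 5 (.n 4 (.f 142896857352) (.k 4325440)) (.k 4358208)) (.k 4524128))) (.n 12 (.n 4 (.n 2 (.f 70920798480) (.k 2162752)) (.k 2228288)) (.k 8389712)))) (.n 19 (.n 15 (.n 12 (.f 295600956624)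 (.k 8389712)) (.k 6653008)) (.k 4228696))))

theorem oS21 : chkQ PS2 228027 [] tS21 = true := by decide +kernel

theorem okS2 : ∀ m ∈ famM 0, ∃ tr, chkQ PS2 m [] tr = true := by
  intro m hm
  simp only [famM, List.mem_cons, List.not_mem_nil, or_false] at hm
  rcases hm with rfl | rfl
  exacts [⟨_, oS20⟩, ⟨_, oS21⟩]

/-- the traces `∅, 0, 1, 01, 02, 12` on the vertices `0, 1, 2` -/
def PS3 : Sp := ⟨15, [(3, 4, 0), (3, 4, 1), (3, 4, 2), (5, 6, 0), (5, 6, 1), (5, 6, 2), (7, 8, 0), (7, 8, 1), (7, 8, 2), (9, 10, 0), (9, 10, 1), (9, 10, 2), (11, 12, 0), (11, 12, 1), (11, 12, 2), (13, 14, 0), (13, 14, 1), (13, 14, 2)], fun l => l == [0, 0, 0, 1, 0, 0, 0, 1, 0, 1, 1, 0, 1, 0, 1, 0, 1, 1]⟩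

theorem okPS3 : PS3.Ok := by unfold Sp.Ok; decide

/-- a tree -/
def tS30 : Tr := (.n 1 (.n 29 (.n 17 (.f 4618389443856) (.n 5 (.n 2 (.n 4 (.n 13 (.f 4549667848464) (.k 10519632)) (.n 25 (.n 24 (.f 22217900837128) (.k 264288)) (.n 15 (.n 10 (.f 23377591730312) (.k 8782408)) (.k 10585168)))) (.n 15 (.n 12 (.n 3 (.f 9484400394283) (.k 4292672)) (.k 263248)) (.k 10585168))) (.n 32 (.n 30 (.n 13 (.f 4548593998672) (.k 10519632)) (.k 264808)) (.k 4524648)))) (.n 16 (.n 34 (.f 4617298920784) (.k 8784488)) (.n 4 (.n 5 (.n 26 (.n 24 (.n 13 (.f 9699194912802) (.k 8422480)) (.k 10487904)) (.k 4524128)) (.n 31 (.n 34 (.n 30 (.f 17820965821256) (.k 264808)) (.k 8784488)) (.n 32 (.n 30 (.n 13 (.f 4548577221456) (.k 8422480)) (.k 264808)) (.k 2165352)))) (.n 26 (.n 24 (.n 13 (.f 4549650696464) (.k 8422480)) (.k 264288)) (.k 4524128))))) (.n 26 (.n 27 (.n 32 (.n 10 (.n 34 (.n 6 (.n 5 (.n 2 (.f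 4676214872401) (.k 2162752)) (.k 2261056)) (.k 262728)) (.n 9 (.n 29 (.n 6 (.n 4 (.n 2 (.f 4609626101921) (.k 2162752)) (.k 2228288)) (.k 262728)) (.k 10913888)) (.n 29 (.n 11 (.n 6 (.n 4 (.n 2 (.f 4744951126289) (.k 2162752)) (.k 2228288)) (.k 262728)) (.k 6455880)) (.k 10913888)))) (.n 25 (.n 8 (.n 6 (.n 4 (.n 2 (.f 4609592543393) (.k 2162752)) (.k 2228288)) (.k 262728)) (.k 8454728)) (.k 2394208))) (.n 5 (.n 4 (.n 3 (.n 2 (.f 9635021455403) (.k 2162752)) (.k 2195520)) (.k 2228288)) (.k 2261056))) (.n 25 (.n 5 (.n 4 (.n 3 (.n 2 (.f 14032145481762) (.k 2162752)) (.k 2195520)) (.k 2228288)) (.k 2261056)) (.k 6326368))) (.n 25 (.n 5 (.n 4 (.n 3 (.n 2 (.f 9633964490787) (.k 2162752)) (.k 2195520)) (.k 2228288)) (.k 2261056)) (.k 4229216))))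

theorem oS30 : chkQ PS3 120663 [] tS30 = true := by decide +kernel

/-- a tree -/
def tS31 : Tr := (.n 26 (.n 20 (.n 19 (.n 24 (.n 32 (.f 9072100332899) (.n 9 (.f 22132039168793) (.n 18 (.n 4 (.n 8 (.n 6 (.f 9564911908377) (.k 6292040)) (.k 6357576)) (.n 10 (.n 17 (.n 8 (.n 6 (.n 2 (.n 1 (.f 4676147024545) (.k 8421440)) (.k 8454208)) (.k 6292040)) (.k 6357576)) (.k 10912848)) (.n 25 (.n 6 (.n 2 (.n 1 (.f 4676146743457) (.k 8421440)) (.k 8454208)) (.k 6292040)) (.k 2394208)))) (.n 23 (.n 11 (.n 6 (.n 3 (.f 13413471073624) (.k 6651968)) (.k 6292040)) (.k 6455880)) (.k 165464))))) (.n 29 (.n 27 (.n 25 (.f 13266284824874) (.k 34912)) (.k 100448)) (.k 165984))) (.n 32 (.f 8943251314019) (.n 22 (.n 23 (.f 8943251306339) (.k 2262616)) (.n 33 (.n 27 (.n 23 (.f 13410019432290) (.k 2262616)) (.k 6654048)) (.n 29 (.n 27 (.n 23 (.f 13410019428706) (.k 10913368)) (.k 6654048)) (.n 34 (.n 30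 (.n 25 (.n 24 (.f 22921396406544) (.k 10487904)) (.k 10520672)) (.k 4196968)) (.k 8784488))))))) (.n 24 (.n 22 (.n 19 (.f 22132039169817) (.k 4228696)) (.k 4327000)) (.n 29 (.n 27 (.n 15 (.f 13410017331554) (.k 6653008)) (.k 100448)) (.k 165984)))) (.n 13 (.n 27 (.n 24 (.n 16 (.f 22200760771857) (.k 8782928)) (.k 4196448)) (.k 4294752)) (.n 24 (.n 17 (.n 16 (.n 12 (.f 22834404730128) (.k 2098256)) (.k 8782928)) (.k 2262096)) (.k 4196448))))

theorem oS31 : chkQ PS3 228027 [] tS31 = true := by decide +kernel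

theorem okS3 : ∀ m ∈ famM 2, ∃ tr, chkQ PS3 m [] tr = true := by
  intro m hm
  simp only [famM, List.mem_cons, List.not_mem_nil, or_false] at hm
  rcases hm with rfl | rfl
  exacts [⟨_, oS30⟩, ⟨_, oS31⟩]

end Pool.Agent.Q275.TC
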