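import Pool.Agent.Q275.TC.Tree

/-! Two vertices which are shattered in a link graph (generated data, checked by the kernel). -/

set_option autoImplicit false
set_option maxRecDepth 100000
set_option maxHeartbeats 4000000

namespace Pool.Agent.Q275.TC
open Pool.Agent.Y47.BU
open Pool.Agent.TH773.ST

/-- the vertices `1` and `2` are shattered by `3, 4, 5, 6` in the link graph of `0` -/
def PV : Sp := ⟨7, [(0, 1, 3), (0, 2, 3), (0, 1, 4), (0, 2, 4), (0, 1, 5), (0, 2, 5), (0, 1, 6), (0, 2, 6)], fun l => l == [0, 0, 1, 0, 0, 1, 1, 1]⟩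

theorem okPV : PV.Ok := by unfold Sp.Ok; decide

/-- a tree -/
def tV0 : Tr := (.n 4 (.f 381060) (.n 24 (.f 440592) (.k 264288)))

theorem oV0 : chkQ PV 120663 [] tV0 = true := by decide +kernel

/-- a tree -/
def tV1 : Tr := (.n 20 (.f 280410) (.f 793370))

theorem oV1 : chkQ PV 228027 [] tV1 = true := by decide +kernel

theorem okV : ∀ m ∈ famM 2, ∃ tr, chkQ PV m [] tr = true := by
  intro m hm
  simp only [famM, List.mem_cons, List.not_mem_nil, or_false] at hm
  rcases hm with rfl | rfl
  exacts [⟨_, oV0⟩, ⟨_, oV1⟩]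

end Pool.Agent.Q275.TC
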