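import Pool.Agent.Y47.BU.GCnt

/-!
# Decision trees for structures which are given by the values of finitely many triples

`Pool/Agent/Y47/BU` has decision trees for the homogeneous blow-ups of a six-vertex 3-graph with
respect to one fixed pattern (`chk`), and the theorem `mainG` for general structures. Here the leaves
of the trees are checked with an arbitrary Boolean function of the values of finitely many triples.
-/

set_option autoImplicit false
set_option maxRecDepth 100000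
open Finset
open scoped Classical

namespace Pool.Agent.Q275.TC
open Pool.Agent.Y47.BU
open Pool.Agent.H122R2.N6 Pool.Agent.H37R3.Pen Pool.Agent.H37R3.Cop
open Pool.Agent.TH773 Pool.Agent.TH773.ST

/-- a property of `k` vertices: the values of the triples in the list `L` satisfy `Q` -/
structure Sp where
  k : ℕ
  L : List (Fin k × Fin k × Fin k)
  Q : List ℕ → Bool

/-- the vertices `w` have the property -/
def Sp.S (P : Sp) (V : Type) (E : V → V → V → ℕ) (w : Fin P.k → V) : Prop :=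
  P.Q (P.L.map fun x => E (w x.1) (w x.2.1) (w x.2.2)) = true

/-- the triples of the list consist of different vertices -/
def Sp.Ok (P : Sp) : Prop :=
  ∀ x ∈ P.L, x.1 ≠ x.2.1 ∧ x.1 ≠ x.2.2 ∧ x.2.1 ≠ x.2.2

/-- the check of a leaf: the digit `i` of `p` to the base `8` is the part of the vertex `i` -/
def leafQ (P : Sp) (m : ℕ) (env : List (ℕ × ℕ)) (p : ℕ) : Bool :=
  (nall P.k fun i => Nat.blt (dF p i) 6) &&
  (P.L.all fun x => Nat.ble (tv m env (dF p x.1.val) (dF p x.2.1.val) (dF p x.2.2.val)) 1) &&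
  P.Q (P.L.map fun x => tv m env (dF p x.1.val) (dF p x.2.1.val) (dF p x.2.2.val))

/-- the check of a tree -/
def chkQ (P : Sp) (m : ℕ) : List (ℕ × ℕ) → Tr → Bool
  | env, .k p => leafK m env p
  | env, .f p => leafQ P m env p
  | env, .n v a b => chkQ P m ((v, 0) :: env) a && chkQ P m ((v, 1) :: env) b

section
variable {V : Type} {E : V → V → V → ℕ} {m t : ℕ} {c : ℕ → ℕ → ℕ} {env : List (ℕ × ℕ)}
  {y : Fin 6 → Fin t → V}

theorem leafQ_sound (hE : Sy E) {P : Sp} (hL : P.Ok) (h : Hom E m c t y) (hA : Agree c env)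
    (ht : P.k ≤ t) {p : ℕ} (hp : leafQ P m env p = true) :
    ∃ e : Fin P.k → Fin 6 × Fin t, Function.Injective e ∧
      P.S V E fun q => y (e q).1 (e q).2 := by
  unfold leafQ at hp
  rw [Bool.and_eq_true, Bool.and_eq_true] at hp
  obtain ⟨⟨h0, h1⟩, h2⟩ := hp
  rw [List.all_eq_true] at h1
  have g : ∀ i, i < P.k → dF p i < 6 := fun i hi => Nat.le_of_ble_eq_true (nall_true h0 i hi)
  let e : Fin P.k → Fin 6 × Fin t := fun q =>
    (⟨dF p q.val, g q.val q.isLt⟩, ⟨q.val, lt_of_lt_of_le q.isLt ht⟩)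
  have he : Function.Injective e := by
    intro i j hh
    have e1 := congrArg Fin.val (Prod.mk.inj hh).2
    exact Fin.ext e1
  refine ⟨e, he, ?_⟩
  unfold Sp.S
  have h3 : (P.L.map fun x => E (y (e x.1).1 (e x.1).2) (y (e x.2.1).1 (e x.2.1).2)
      (y (e x.2.2).1 (e x.2.2).2)) =
      P.L.map fun x => tv m env (dF p x.1.val) (dF p x.2.1.val) (dF p x.2.2.val) := by
    refine List.map_congr_left fun x hx => ?_
    obtain ⟨d1, d2, d3⟩ := hL x hx
    refine tv_sound hE h hA (e x.1).1 (e x.2.1).1 (e x.2.2).1 _ _ _ ?_ ?_ ?_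
      (Nat.le_of_ble_eq_true (h1 x hx)) rfl
    · exact fun _ hh => d1 (Fin.ext (by have h4 := congrArg Fin.val hh; exact h4))
    · exact fun _ hh => d2 (Fin.ext (by have h4 := congrArg Fin.val hh; exact h4))
    · exact fun _ hh => d3 (Fin.ext (by have h4 := congrArg Fin.val hh; exact h4))
  rw [h3]
  exact h2

theorem chkQ_sound (hE : Sy E) (hK : NoK4 E) {P : Sp} (hL : P.Ok) (h : Hom E m c t y)
    (hc : ∀ i j, c i j = 0 ∨ c i j = 1) (ht2 : 2 ≤ t) (ht : P.k ≤ t) :
    ∀ (tr : Tr) (env : List (ℕ × ℕ)), Agree c env → chkQ P m env tr = true →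
    ∃ e : Fin P.k → Fin 6 × Fin t, Function.Injective e ∧
      P.S V E fun q => y (e q).1 (e q).2
  | .k p, env, hA, hp => (leafK_sound hE hK h hA ht2 hp).elim
  | .f p, env, hA, hp => leafQ_sound hE hL h hA ht hp
  | .n v a b, env, hA, hp => by
    have hp' : (chkQ P m ((v, 0) :: env) a && chkQ P m ((v, 1) :: env) b) = true := hp
    rw [Bool.and_eq_true] at hp'
    rcases hc (v / 6) (v % 6) with e | e
    · exact chkQ_sound hE hK hL h hc ht2 ht a _ (hA.cons e) hp'.1
    · exact chkQ_sound hE hK hL h hc ht2 ht b _ (hA.cons e) hp'.2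

end

/-- a valid tree shows that all large blow-ups contain the structure -/
theorem ramQ {P : Sp} (hL : P.Ok) {m : ℕ} (h : ∃ tr, chkQ P m [] tr = true) : RamG P.S m := by
  obtain ⟨tr, htr⟩ := h
  refine ramG (P.k + 8) (by omega) (by rw [Fintype.card_fin]; omega) ?_
  intro V E c y hE hK hH hc
  refine chkQ_sound hE hK hL hH hc (by omega) (by omega) tr [] ?_ htr
  intro i j _ _
  exact Or.inl rfl

/-- Turán's bound and stability for 3-graphs with few structures of this kind -/
theorem bound (i : Fin 5) {P : Sp} (hL : P.Ok) (h : ∀ m ∈ famM i, ∃ tr, chkQ P m [] tr = true)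
    {ε : ℝ} (hε : 0 < ε) : ∃ δ : ℝ, 0 < δ ∧ ∃ n0 : ℕ, ∀ n, n0 ≤ n →
      ∀ H : Finset (Finset (Fin n)), (∀ e ∈ H, e.card = 3) → Turan34.K43Free H →
      ((sS (P.S (Fin n) (tri H))).card : ℝ) ≤ δ * (n : ℝ) ^ P.k →
      (H.card : ℝ) ≤ (5 / 9 + ε) * (n.choose 3 : ℝ) ∧ ∃ g : Fin n → Fin 3,
      ((symmDiff H (Turan34.turan g)).card : ℝ) ≤
        1161216000 * (5 / 54 * (n : ℝ) ^ 3 - H.card) + ε * (n : ℝ) ^ 3 := by
  obtain ⟨K, n0, h1⟩ := mainG i (S := P.S) (fun m hm => ramQ hL (h m hm)) hε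
  refine ⟨1 / ((K : ℝ) + 1), by positivity, n0, fun n hn H h3 hK hl => ?_⟩
  refine h1 n hn H h3 hK ?_
  rw [Fintype.card_fin]
  have a1 : (K : ℝ) * (sS (P.S (Fin n) (tri H))).card ≤ (n : ℝ) ^ P.k := by
    rw [div_mul_eq_mul_div, one_mul, le_div_iff₀ (by positivity)] at hl
    have : (0 : ℝ) ≤ ((sS (P.S (Fin n) (tri H))).card : ℝ) := Nat.cast_nonneg _
    nlinarith
  exact_mod_cast a1

end Pool.Agent.Q275.TC
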